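import Pool.Agent.Helper253.Emb.Web

set_option autoImplicit false
set_option linter.unusedSectionVars false

namespace Pool.Agent.Helper885.Emb

open Quaternion Topology Set Metric
open scoped ContDiff
open Pool.Agent.Helper253 Pool.Agent.Helper253.Net Pool.Agent.Helper253.Emb

/-- Two separating directions: all `a`-directions lie in `[c, d]`, all `b`-directions in
`[d - π, c]`. -/
structure Dir (W : Web) (c d : ℝ) : Prop where
  h1 : ∀ u, c ≤ W.θ1 u
  h2 : ∀ u, W.θ1 u ≤ d
  h3 : ∀ v, d - Real.pi ≤ W.θ2 v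
  h4 : ∀ v, W.θ2 v ≤ c
  h5 : c < d
  h6 : d < c + Real.pi

namespace Dir

variable {W : Web} {c d : ℝ} (D : Dir W c d)

include D

theorem sg_pos : 0 < Real.sin (d - c) :=
  Real.sin_pos_of_pos_of_lt_pi (by linarith [D.h5]) (by linarith [D.h6])

theorem sg_le : Real.sin (d - c) ≤ 1 := Real.sin_le_one _

/-- Concavity bound. -/
theorem sin_sum {x : ℝ} (h0 : c ≤ x) (h1 : x ≤ d) :
    Real.sin (d - c) ≤ Real.sin (d - x) + Real.sin (x - c) := by
  have h5 := D.h5
  have h6 := D.h6
  -- sin (d-c) = sin (d-x) cos (x-c) + cos (d-x) sin (x-c)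
  have e : d - c = (d - x) + (x - c) := by ring
  rw [e, Real.sin_add]
  have a1 : 0 ≤ Real.sin (d - x) := Real.sin_nonneg_of_nonneg_of_le_pi (by linarith) (by linarith)
  have a2 : 0 ≤ Real.sin (x - c) := Real.sin_nonneg_of_nonneg_of_le_pi (by linarith) (by linarith)
  have b1 := Real.cos_le_one (x - c)
  have b2 := Real.cos_le_one (d - x)
  nlinarith

theorem dPF (u : ℝ) : HasDerivAt (fun u => cr (W.F u) (ei d)) (Real.sin (d - W.θ1 u)) u := by
  have := Web.hasDerivAt_cr_left (W.dF u) (ei d)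
  rwa [cr_ei] at this

theorem dQF (u : ℝ) : HasDerivAt (fun u => cr (ei c) (W.F u)) (Real.sin (W.θ1 u - c)) u := by
  have := Web.hasDerivAt_cr_right (W.dF u) (ei c)
  rwa [cr_ei] at this

theorem dPG (v : ℝ) : HasDerivAt (fun u => cr (W.G u) (ei d)) (Real.sin (d - W.θ2 v)) v := by
  have := Web.hasDerivAt_cr_left (W.dG v) (ei d)
  rwa [cr_ei] at this

theorem dQG (v : ℝ) : HasDerivAt (fun u => cr (ei c) (W.G u)) (Real.sin (W.θ2 v - c)) v := by
  have := Web.hasDerivAt_cr_right (W.dG v) (ei c)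
  rwa [cr_ei] at this

theorem PF_nonneg {s t : ℝ} (h : s ≤ t) : 0 ≤ cr (W.F t - W.F s) (ei d) := by
  have := Web.growth D.dPF (C := 0) (fun x => Real.sin_nonneg_of_nonneg_of_le_pi
    (by linarith [D.h2 x]) (by linarith [D.h1 x, D.h6])) h
  rw [cr_sub_left]; linarith

theorem QF_nonneg {s t : ℝ} (h : s ≤ t) : 0 ≤ cr (ei c) (W.F t - W.F s) := by
  have := Web.growth D.dQF (C := 0) (fun x => Real.sin_nonneg_of_nonneg_of_le_pi
    (by linarith [D.h1 x]) (by linarith [D.h2 x, D.h6])) h
  rw [cr_sub_right]; linarith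

theorem PG_nonneg {s t : ℝ} (h : s ≤ t) : 0 ≤ cr (W.G t - W.G s) (ei d) := by
  have := Web.growth D.dPG (C := 0) (fun x => Real.sin_nonneg_of_nonneg_of_le_pi
    (by linarith [D.h4 x, D.h5]) (by linarith [D.h3 x])) h
  rw [cr_sub_left]; linarith

theorem QG_nonpos {s t : ℝ} (h : s ≤ t) : cr (ei c) (W.G t - W.G s) ≤ 0 := by
  have := Web.growth (fun x => (D.dQG x).neg) (C := 0) (fun x => by
    rw [← Real.sin_neg]
    exact Real.sin_nonneg_of_nonneg_of_le_pi
      (by linarith [D.h4 x]) (by linarith [D.h3 x, D.h5])) h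
  simp only [Pi.neg_apply] at this
  rw [cr_sub_right]; linarith

theorem sumF {s t : ℝ} (h : s ≤ t) :
    Real.sin (d - c) * (t - s) ≤ cr (W.F t - W.F s) (ei d) + cr (ei c) (W.F t - W.F s) := by
  have := Web.growth (fun x => (D.dPF x).add (D.dQF x)) (C := Real.sin (d - c))
    (fun x => D.sin_sum (D.h1 x) (D.h2 x)) h
  simp only [Pi.add_apply] at this
  rw [cr_sub_right, cr_sub_left]; linarith

theorem sumG {s t : ℝ} (h : s ≤ t) :
    Real.sin (d - c) * (t - s) ≤ cr (W.G t - W.G s) (ei d) - cr (ei c) (W.G t - W.G s) := by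
  have := Web.growth (fun x => (D.dPG x).sub (D.dQG x)) (C := Real.sin (d - c))
    (fun x => by
      have h5 := D.h5
      have h6 := D.h6
      have h3 := D.h3 x
      have h4 := D.h4 x
      -- y = θ2 + π ∈ [d, c + π]
      have e1 : Real.sin (d - W.θ2 x) - Real.sin (W.θ2 x - c) =
        Real.sin (d - W.θ2 x) + Real.sin (c - W.θ2 x) := by
        have : W.θ2 x - c = -(c - W.θ2 x) := by ring
        rw [this, Real.sin_neg]; ring
      rw [e1]
      have a1 : 0 ≤ Real.sin (d - W.θ2 x) :=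
        Real.sin_nonneg_of_nonneg_of_le_pi (by linarith) (by linarith)
      have a2 : 0 ≤ Real.sin (c - W.θ2 x) :=
        Real.sin_nonneg_of_nonneg_of_le_pi (by linarith) (by linarith)
      have e2 : d - c = (d - W.θ2 x) - (c - W.θ2 x) := by ring
      rw [e2, Real.sin_sub]
      have b1 := Real.cos_le_one (c - W.θ2 x)
      have b2 := Real.neg_one_le_cos (d - W.θ2 x)
      nlinarith) h
  simp only [Pi.sub_apply] at this
  rw [cr_sub_right, cr_sub_left]; linarith

theorem PF_le {s t : ℝ} (h : s ≤ t) : cr (W.F t - W.F s) (ei d) ≤ t - s := by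
  have h1 := (le_abs_self _).trans (cr_le (W.F t - W.F s) (ei d))
  rw [norm_ei, mul_one] at h1
  have h2 := W.lip_F t s
  rw [abs_of_nonneg (by linarith)] at h2
  linarith

theorem QF_le {s t : ℝ} (h : s ≤ t) : cr (ei c) (W.F t - W.F s) ≤ t - s := by
  have h1 := (le_abs_self _).trans (cr_le (ei c) (W.F t - W.F s))
  rw [norm_ei, one_mul] at h1
  have h2 := W.lip_F t s
  rw [abs_of_nonneg (by linarith)] at h2
  linarith

theorem PG_le {s t : ℝ} (h : s ≤ t) : cr (W.G t - W.G s) (ei d) ≤ t - s := by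
  have h1 := (le_abs_self _).trans (cr_le (W.G t - W.G s) (ei d))
  rw [norm_ei, mul_one] at h1
  have h2 := W.lip_G t s
  rw [abs_of_nonneg (by linarith)] at h2
  linarith

theorem QG_ge {s t : ℝ} (h : s ≤ t) : -(t - s) ≤ cr (ei c) (W.G t - W.G s) := by
  have h1 := (neg_abs_le _).trans' (neg_le_neg (cr_le (ei c) (W.G t - W.G s)))
  rw [norm_ei, one_mul] at h1
  have h2 := W.lip_G t s
  rw [abs_of_nonneg (by linarith)] at h2
  linarith

end Dir

/-- `K` before, `J` after. -/
def NE (W : Web) (c d k T u : ℝ) : Prop :=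
  T ≤ cr (ei c) (W.G (u - k) - W.G u) ∧ T ≤ cr (W.G (u + k) - W.G u) (ei d)

/-- The parallelogram. -/
def Reg (c d T : ℝ) : Set ℂ :=
  {z | 0 < cr z (ei d) ∧ cr z (ei d) < T ∧ 0 < cr (ei c) z ∧ cr (ei c) z < T}

theorem Reg_convex (c d T : ℝ) : Convex ℝ (Reg c d T) := by
  intro x hx y hy a b ha hb hab
  obtain ⟨x1, x2, x3, x4⟩ := hx
  obtain ⟨y1, y2, y3, y4⟩ := hy
  have e1 : cr (a • x + b • y) (ei d) = a * cr x (ei d) + b * cr y (ei d) := by
    simp [cr]; ring
  have e2 : cr (ei c) (a • x + b • y) = a * cr (ei c) x + b * cr (ei c) y := by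
    simp [cr]; ring
  refine ⟨?_, ?_, ?_, ?_⟩
  · rw [e1]; rcases ha.eq_or_lt with h | h
    · rw [← h, zero_add] at hab; rw [← h, hab]; linarith
    · nlinarith [mul_pos h x1, mul_nonneg hb y1.le]
  · rw [e1]; rcases ha.eq_or_lt with h | h
    · rw [← h, zero_add] at hab; rw [← h, hab]; linarith
    · have := mul_lt_mul_of_pos_left x2 h
      have := mul_le_mul_of_nonneg_left y2.le hb
      have e : T = a * T + b * T := by rw [← add_mul, hab, one_mul]
      linarith
  · rw [e2]; rcases ha.eq_or_lt with h | h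
    · rw [← h, zero_add] at hab; rw [← h, hab]; linarith
    · nlinarith [mul_pos h x3, mul_nonneg hb y3.le]
  · rw [e2]; rcases ha.eq_or_lt with h | h
    · rw [← h, zero_add] at hab; rw [← h, hab]; linarith
    · have := mul_lt_mul_of_pos_left x4 h
      have := mul_le_mul_of_nonneg_left y4.le hb
      have e : T = a * T + b * T := by rw [← add_mul, hab, one_mul]
      linarith

theorem continuous_cr_left (w : ℂ) : Continuous (fun z => cr z w) := by
  unfold cr; fun_prop

theorem continuous_cr_right (w : ℂ) : Continuous (fun z => cr w z) := by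
  unfold cr; fun_prop

theorem Reg_open (c d T : ℝ) : IsOpen (Reg c d T) := by
  have h1 := continuous_cr_left (ei d)
  have h2 := continuous_cr_right (ei c)
  exact (isOpen_lt continuous_const h1).inter ((isOpen_lt h1 continuous_const).inter
    ((isOpen_lt continuous_const h2).inter (isOpen_lt h2 continuous_const)))

/-- The diagonal direction. -/
noncomputable def e0 (c d : ℝ) : ℂ := (1 / Real.sin (d - c)) • (ei c + ei d)

theorem cr_e0_left {W : Web} {c d : ℝ} (D : Dir W c d) : cr (e0 c d) (ei d) = 1 := by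
  have h := D.sg_pos
  have e : cr (e0 c d) (ei d) = 1 / Real.sin (d - c) * (cr (ei c) (ei d) + cr (ei d) (ei d)) := by
    simp only [e0, cr, Complex.real_smul, Complex.add_re, Complex.add_im, Complex.re_ofReal_mul,
      Complex.im_ofReal_mul]
    ring
  rw [e, cr_ei, cr_self, add_zero]
  field_simp

theorem cr_e0_right {W : Web} {c d : ℝ} (D : Dir W c d) : cr (ei c) (e0 c d) = 1 := by
  have h := D.sg_pos
  have e : cr (ei c) (e0 c d) = 1 / Real.sin (d - c) * (cr (ei c) (ei c) + cr (ei c) (ei d)) := by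
    simp only [e0, cr, Complex.real_smul, Complex.add_re, Complex.add_im, Complex.re_ofReal_mul,
      Complex.im_ofReal_mul]
    ring
  rw [e, cr_self, cr_ei, zero_add]
  field_simp

theorem norm_e0 {W : Web} {c d : ℝ} (D : Dir W c d) : ‖e0 c d‖ ≤ 2 / Real.sin (d - c) := by
  have h := D.sg_pos
  rw [e0, norm_smul, Real.norm_eq_abs, abs_of_pos (by positivity)]
  have h1 : ‖ei c + ei d‖ ≤ 2 := (norm_add_le _ _).trans (by rw [norm_ei, norm_ei]; norm_num)
  calc 1 / Real.sin (d - c) * ‖ei c + ei d‖ ≤ 1 / Real.sin (d - c) * 2 :=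
        mul_le_mul_of_nonneg_left h1 (by positivity)
    _ = 2 / Real.sin (d - c) := by ring

/-- A point of the region is controlled by its coordinates. -/
theorem norm_le_of_coord {W : Web} {c d : ℝ} (D : Dir W c d) (z : ℂ) :
    ‖z‖ ≤ (|cr z (ei d)| + |cr (ei c) z|) / Real.sin (d - c) := by
  have h := D.sg_pos
  have e : Real.sin (d - c) • z = cr z (ei d) • ei c + cr (ei c) z • ei d := by
    rw [← cr_ei]
    apply Complex.ext
    · simp only [cr, Complex.real_smul, Complex.add_re, Complex.re_ofReal_mul]; ring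
    · simp only [cr, Complex.real_smul, Complex.add_im, Complex.im_ofReal_mul]; ring
  rw [le_div_iff₀ h]
  have h1 : ‖Real.sin (d - c) • z‖ = ‖z‖ * Real.sin (d - c) := by
    rw [norm_smul, Real.norm_eq_abs, abs_of_pos h, mul_comm]
  rw [← h1, e]
  refine (norm_add_le _ _).trans ?_
  rw [norm_smul, norm_smul, norm_ei, norm_ei, mul_one, mul_one, Real.norm_eq_abs, Real.norm_eq_abs]

/-- A pair of parameters over the region: a priori location. -/
theorem loc {W : Web} {c d : ℝ} (D : Dir W c d) {k T u s : ℝ}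
    (hN : NE W c d k T u) {ζ : ℂ} (hζ : ζ ∈ Reg c d T) {s' v' : ℝ}
    (h : W.F s' + W.G v' = W.F s + W.G u + ζ) :
    s ≤ s' ∧ s' - s ≤ (2 * T + k) / Real.sin (d - c) ∧ |v' - u| ≤ k ∧
      min (cr ζ (ei d)) (cr (ei c) ζ) ≤ s' - s := by
  have hσ := D.sg_pos
  obtain ⟨z1, z2, z3, z4⟩ := hζ
  obtain ⟨n1, n2⟩ := hN
  have e : ζ = (W.F s' - W.F s) + (W.G v' - W.G u) := by linear_combination (-1 : ℂ) * h
  have eP : cr ζ (ei d) = cr (W.F s' - W.F s) (ei d) + cr (W.G v' - W.G u) (ei d) := by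
    rw [e]; simp [cr]; ring
  have eQ : cr (ei c) ζ = cr (ei c) (W.F s' - W.F s) + cr (ei c) (W.G v' - W.G u) := by
    rw [e]; simp [cr]; ring
  have antiP : ∀ z w : ℂ, cr (z - w) (ei d) = -cr (w - z) (ei d) := fun z w => by
    simp [cr]; ring
  have antiQ : ∀ z w : ℂ, cr (ei c) (z - w) = -cr (ei c) (w - z) := fun z w => by
    simp [cr]; ring
  -- s ≤ s'
  have hs : s ≤ s' := by
    by_contra hlt
    push Not at hlt
    have p1 := D.PF_nonneg hlt.le
    have q1 := D.QF_nonneg hlt.le
    rw [antiP] at p1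
    rw [antiQ] at q1
    rcases le_total u v' with hv | hv
    · have := D.QG_nonpos hv
      linarith
    · have := D.PG_nonneg hv
      rw [antiP] at this
      linarith
  have hv : |v' - u| ≤ k := by
    rw [abs_le]
    constructor
    · by_contra hlt
      push Not at hlt
      -- v' < u - k
      have h1 : v' ≤ u - k := by linarith
      have h2 := D.QG_nonpos h1
      have h3 := D.QF_nonneg hs
      have h4 : cr (ei c) (W.G v' - W.G u) = -cr (ei c) (W.G (u - k) - W.G v') +
        cr (ei c) (W.G (u - k) - W.G u) := by simp [cr]; ring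
      linarith
    · by_contra hlt
      push Not at hlt
      have h1 : u + k ≤ v' := by linarith
      have h2 := D.PG_nonneg h1
      have h3 := D.PF_nonneg hs
      have h4 : cr (W.G v' - W.G u) (ei d) = cr (W.G v' - W.G (u + k)) (ei d) +
        cr (W.G (u + k) - W.G u) (ei d) := by simp [cr]; ring
      linarith
  rw [abs_le] at hv
  have hsum := D.sumF hs
  have hF1 := D.PF_le hs
  have hF2 := D.QF_le hs
  refine ⟨hs, ?_, abs_le.2 hv, ?_⟩
  · rw [le_div_iff₀ hσ]
    rcases le_total u v' with h1 | h1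
    · have g1 := D.PG_nonneg h1
      have g2 := D.QG_ge h1
      nlinarith
    · have g1 := D.PG_le h1
      have g2 := D.QG_nonpos h1
      rw [antiP] at g1
      rw [antiQ] at g2
      nlinarith
  · rcases le_total u v' with h1 | h1
    · have g2 := D.QG_nonpos h1
      exact (min_le_right _ _).trans (by linarith)
    · have g1 := D.PG_nonneg h1
      rw [antiP] at g1
      exact (min_le_left _ _).trans (by linarith)

/-- The uniform chart. -/
theorem chart {W : Web} {c d : ℝ} (D : Dir W c d) {k T u : ℝ} (hk : 0 < k) (hT : 0 < T)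
    (hN : NE W c d k T u) (s : ℝ) {ζ : ℂ} (hζ : ζ ∈ Reg c d T) :
    ∃ s' v', W.F s' + W.G v' = W.F s + W.G u + ζ := by
  have hσ := D.sg_pos
  set R : ℝ := (2 * T + k) / Real.sin (d - c) with hR
  have hR0 : 0 < R := by positivity
  set V : Set ℂ := W.P '' (Ioo (s - 1) (s + R + 1) ×ˢ Ioo (u - k - 1) (u + k + 1)) with hV
  set K : Set ℂ := W.P '' (Icc (s - 1) (s + R + 1) ×ˢ Icc (u - k - 1) (u + k + 1)) with hK
  have hVo : IsOpen V := W.P_open _ (isOpen_Ioo.prod isOpen_Ioo)
  have hKc : IsClosed K := ((isCompact_Icc.prod isCompact_Icc).image W.cont_P).isClosed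
  have hVK : V ⊆ K := image_mono (prod_mono Ioo_subset_Icc_self Ioo_subset_Icc_self)
  have hcl : closure V ⊆ K := closure_minimal hVK hKc
  set Y : Set ℂ := (fun ζ => W.F s + W.G u + ζ) '' Reg c d T with hY
  have hYc : Convex ℝ Y := by
    have := (Reg_convex c d T).translate (W.F s + W.G u)
    exact this
  have hmem0 : W.F s + W.G u ∈ V :=
    ⟨(s, u), ⟨⟨by simp only; linarith, by simp only; linarith⟩,
        ⟨by simp only; linarith, by simp only; linarith⟩⟩, rfl⟩
  have hne : (Y ∩ V).Nonempty := by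
    obtain ⟨ε, hε, hball⟩ := Metric.isOpen_iff.1 hVo _ hmem0
    set τ : ℝ := min (T / 2) (ε * Real.sin (d - c) / 4) with hτ
    have hτ0 : 0 < τ := by positivity
    refine ⟨W.F s + W.G u + τ • e0 c d, ⟨τ • e0 c d, ?_, rfl⟩, hball ?_⟩
    · have e1 : cr (τ • e0 c d) (ei d) = τ := by
        have : cr (τ • e0 c d) (ei d) = τ * cr (e0 c d) (ei d) := by simp [cr]; ring
        rw [this, cr_e0_left D, mul_one]
      have e2 : cr (ei c) (τ • e0 c d) = τ := by
        have : cr (ei c) (τ • e0 c d) = τ * cr (ei c) (e0 c d) := by simp [cr]; ring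
        rw [this, cr_e0_right D, mul_one]
      have h3 : τ < T := lt_of_le_of_lt (min_le_left _ _) (by linarith)
      exact ⟨by rw [e1]; exact hτ0, by rw [e1]; exact h3, by rw [e2]; exact hτ0,
        by rw [e2]; exact h3⟩
    · rw [mem_ball, dist_eq_norm, add_sub_cancel_left, norm_smul, Real.norm_eq_abs,
        abs_of_pos hτ0]
      have h1 := norm_e0 D
      have h2 : τ ≤ ε * Real.sin (d - c) / 4 := min_le_right _ _
      calc τ * ‖e0 c d‖ ≤ (ε * Real.sin (d - c) / 4) * (2 / Real.sin (d - c)) :=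
            mul_le_mul h2 h1 (norm_nonneg _) (by positivity)
        _ = ε / 2 := by field_simp; norm_num
        _ < ε := by linarith
  have hsub : Y ⊆ V := by
    refine hYc.isPreconnected.subset_of_closure_inter_subset hVo hne ?_
    rintro y ⟨hy1, hy2⟩
    obtain ⟨⟨s', v'⟩, ⟨hu, hw'⟩, hy⟩ := hcl hy1
    obtain ⟨ζ', hζ', hy'⟩ := hy2
    have hy'' : W.F s' + W.G v' = W.F s + W.G u + ζ' := by
      have e : W.F s' + W.G v' = y := hy
      rw [e]; exact hy'.symm
    obtain ⟨l1, l2, l3, -⟩ := loc D hN hζ' hy''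
    rw [abs_le] at l3
    exact ⟨(s', v'), ⟨⟨by simp only; linarith, by simp only; linarith⟩,
      ⟨by simp only; linarith, by simp only; linarith⟩⟩, hy⟩
  obtain ⟨⟨s', v'⟩, -, hy⟩ := hsub ⟨ζ, hζ, rfl⟩
  exact ⟨s', v', hy⟩

end Pool.Agent.Helper885.Emb
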